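import Pool.Agent.H505R3.SLM.Stmts2

set_option autoImplicit false

open MvPolynomial

namespace Pool.Agent.H505R3.SLM

namespace TF

section
variable {K : Type*} [Field K] {ι σ : Type*}

theorem pderiv_rename_inl (u : σ) (q : MvPolynomial ι K) :
    pderiv (Sum.inr u) (rename (Sum.inl : ι → ι ⊕ σ) q) = 0 := by
  classical
  induction q using MvPolynomial.induction_on with
  | C a => simp
  | add p q hp hq => simp [hp, hq]
  | mul_X p i hp =>
    rw [map_mul, rename_X, pderiv_mul, hp, pderiv_X_of_ne (by simp)]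
    simp

theorem Phi_X (S : σ → MvPolynomial ι K) (w : σ) :
    Phi S (X w) = Polynomial.C (rename Sum.inl (S w)) +
      Polynomial.X * Polynomial.C (X (Sum.inr w)) := by
  simp [Phi]

theorem Phi_C (S : σ → MvPolynomial ι K) (a : K) :
    Phi S (C a) = Polynomial.C (C a) := by
  have h : (C a : MvPolynomial σ K) = algebraMap K (MvPolynomial σ K) a := rfl
  rw [h, AlgHom.commutes]
  rfl

theorem coeff_zero_mul (F : Polynomial (MvPolynomial (ι ⊕ σ) K)) (a b : MvPolynomial (ι ⊕ σ) K) :
    (F * (Polynomial.C a + Polynomial.X * Polynomial.C b)).coeff 0 = F.coeff 0 * a := by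
  rw [Polynomial.mul_coeff_zero]; simp

theorem coeff_succ_mul (F : Polynomial (MvPolynomial (ι ⊕ σ) K)) (a b : MvPolynomial (ι ⊕ σ) K)
    (j : ℕ) :
    (F * (Polynomial.C a + Polynomial.X * Polynomial.C b)).coeff (j + 1) =
      F.coeff (j + 1) * a + F.coeff j * b := by
  rw [mul_add, Polynomial.coeff_add, Polynomial.coeff_mul_C, ← mul_assoc, Polynomial.coeff_mul_C,
    Polynomial.coeff_mul_X]

theorem Phi_coeff_zero (S : σ → MvPolynomial ι K) (p : MvPolynomial σ K) :
    (Phi S p).coeff 0 = rename Sum.inl (aeval S p) := by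
  induction p using MvPolynomial.induction_on with
  | C a => rw [Phi_C]; simp
  | add p q hp hq => simp [hp, hq]
  | mul_X p w hp =>
    rw [map_mul, Phi_X, coeff_zero_mul, hp]
    simp

theorem Phi_pderiv (S : σ → MvPolynomial ι K) (u : σ) (p : MvPolynomial σ K) :
    ∀ j, (Phi S (pderiv u p)).coeff j = pderiv (Sum.inr u) ((Phi S p).coeff (j + 1)) := by
  classical
  induction p using MvPolynomial.induction_on with
  | C a => intro j; rw [pderiv_C, Phi_C, map_zero]; simp
  | add p q hp hq => intro j; simp [hp, hq]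
  | mul_X p w hp =>
    intro j
    rw [pderiv_mul, map_add, map_mul, map_mul, map_mul, Phi_X, Polynomial.coeff_add,
      coeff_succ_mul, map_add, pderiv_mul, pderiv_mul, pderiv_rename_inl]
    have hXw : (Phi S p * Phi S (pderiv u (X w))).coeff j =
        (Phi S p).coeff j * pderiv (Sum.inr u) (X (Sum.inr w)) := by
      by_cases h : w = u
      · subst h
        rw [pderiv_X_self, pderiv_X_self, map_one, mul_one, mul_one]
      · rw [pderiv_X_of_ne h, pderiv_X_of_ne (by simpa using h), map_zero, mul_zero, mul_zero]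
        simp
    rw [hXw]
    cases j with
    | zero =>
      rw [coeff_zero_mul, hp 0, Phi_coeff_zero S p, pderiv_rename_inl]
      simp
    | succ j =>
      rw [coeff_succ_mul, hp (j + 1), hp j]
      ring

theorem Phi_coeff_one [Fintype σ] (S : σ → MvPolynomial ι K) (p : MvPolynomial σ K) :
    (Phi S p).coeff 1 = Pf S p := by
  classical
  induction p using MvPolynomial.induction_on with
  | C a => rw [Phi_C]; simp [Pf]
  | add p q hp hq => 
    rw [map_add, Polynomial.coeff_add, hp, hq]
    simp [Pf, add_mul, Finset.sum_add_distrib]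
  | mul_X p w hp =>
    rw [map_mul, Phi_X, coeff_succ_mul, hp, Phi_coeff_zero]
    unfold Pf
    simp only [pderiv_mul, map_add, map_mul, aeval_X, add_mul, Finset.sum_add_distrib]
    congr 1
    · rw [Finset.sum_mul]
      apply Finset.sum_congr rfl
      intro u _
      ring
    · rw [Finset.sum_eq_single w]
      · rw [pderiv_X_self]; simp
      · intro u _ hu
        rw [pderiv_X_of_ne (Ne.symm hu)]; simp
      · simp

/-- a left inverse of `Phi` -/
noncomputable def Psi (S : σ → MvPolynomial ι K) :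
    Polynomial (MvPolynomial (ι ⊕ σ) K) →+* MvPolynomial σ K :=
  Polynomial.eval₂RingHom
    ((aeval (Sum.elim (fun _ => 0) (fun u => X u - C (constantCoeff (S u)))) :
      MvPolynomial (ι ⊕ σ) K →ₐ[K] MvPolynomial σ K) : MvPolynomial (ι ⊕ σ) K →+* MvPolynomial σ K) 1

theorem Psi_Phi (S : σ → MvPolynomial ι K) (p : MvPolynomial σ K) : Psi S (Phi S p) = p := by
  have h : (Psi S).comp (Phi S : MvPolynomial σ K →+* Polynomial (MvPolynomial (ι ⊕ σ) K)) =
      RingHom.id _ := by
    apply MvPolynomial.ringHom_ext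
    · intro a
      simp only [RingHom.comp_apply, RingHom.coe_coe, Phi_C, RingHom.id_apply]
      simp [Psi]
    · intro w
      simp only [RingHom.comp_apply, RingHom.coe_coe, Phi_X, RingHom.id_apply]
      have h0 : (aeval (fun _ : ι => (0 : MvPolynomial σ K))) (S w) = C (constantCoeff (S w)) := by
        exact MvPolynomial.aeval_zero (S₁ := MvPolynomial σ K) (S w)
      simp only [Psi, Polynomial.coe_eval₂RingHom, Polynomial.eval₂_add, Polynomial.eval₂_mul,
        Polynomial.eval₂_C, Polynomial.eval₂_X, RingHom.coe_coe, aeval_rename, aeval_X,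
        Sum.elim_inr, one_mul]
      have h1 : (Sum.elim (fun _ : ι => (0 : MvPolynomial σ K))
          (fun u => X u - C (constantCoeff (S u)))) ∘ Sum.inl = fun _ : ι => 0 := by
        funext i; rfl
      rw [h1, h0]
      ring
  exact congrArg (fun φ => φ p) h

theorem Phi_ne_zero (S : σ → MvPolynomial ι K) {p : MvPolynomial σ K} (hp : p ≠ 0) :
    Phi S p ≠ 0 := by
  intro h
  apply hp
  rw [← Psi_Phi S p, h, map_zero]

theorem exists_trailing {B : Type*} [CommRing B] [IsDomain B] (F : Polynomial B) (hF : F ≠ 0) :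
    ∃ (n : ℕ) (F0 : Polynomial B), F = Polynomial.X ^ n * F0 ∧ F0.coeff 0 ≠ 0 := by
  obtain ⟨n, hn⟩ : ∃ n, n = F.natTrailingDegree := ⟨_, rfl⟩
  have h1 : Polynomial.X ^ n ∣ F := by
    rw [Polynomial.X_pow_dvd_iff]
    intro d hd
    exact Polynomial.coeff_eq_zero_of_lt_natTrailingDegree (hn ▸ hd)
  obtain ⟨F0, hF0⟩ := h1
  refine ⟨n, F0, hF0, ?_⟩
  have h2 : F.coeff n ≠ 0 := by
    rw [hn]; exact Polynomial.trailingCoeff_nonzero_iff_nonzero.mpr hF
  have h3 : F.coeff n = F0.coeff 0 := by
    conv_lhs => rw [hF0]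
    have := Polynomial.coeff_X_pow_mul F0 n 0
    rw [zero_add] at this
    exact this
  rw [← h3]; exact h2

end

end TF

open TF in
theorem taskF : TaskF := by
  intro K _ ι σ _ S f g hfg hf hPf
  have hg : g ≠ 0 := right_ne_zero_of_mul hfg
  obtain ⟨o, G0, hG, hG0⟩ := exists_trailing (Phi S g) (Phi_ne_zero S hg)
  have hF : Polynomial.X ∣ Phi S f := by
    rw [Polynomial.X_dvd_iff, Phi_coeff_zero, hf, map_zero]
  obtain ⟨F0, hF0⟩ := hF
  have hF1 : F0.coeff 0 = Pf S f := by
    rw [← Phi_coeff_one, hF0, Polynomial.coeff_X_mul]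
  have hQ : Phi S (f * g) = Polynomial.X ^ (o + 1) * (F0 * G0) := by
    rw [map_mul, hF0, hG]; ring
  have hQ0 : (F0 * G0).coeff 0 = Pf S f * G0.coeff 0 := by
    rw [Polynomial.mul_coeff_zero, hF1]
  have hco : ∀ j, (Phi S (f * g)).coeff (j + (o + 1)) = (F0 * G0).coeff j := by
    intro j
    rw [hQ, Polynomial.coeff_X_pow_mul]
  have hdv : ∀ u, ∃ Q' : Polynomial (MvPolynomial (ι ⊕ σ) K),
      Phi S (pderiv u (f * g)) = Polynomial.X ^ o * Q' := by
    intro u
    have : Polynomial.X ^ o ∣ Phi S (pderiv u (f * g)) := by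
      rw [Polynomial.X_pow_dvd_iff]
      intro d hd
      rw [Phi_pderiv]
      have h0 : (Phi S (f * g)).coeff (d + 1) = 0 := by
        have h1 : Polynomial.X ^ (o + 1) ∣ Phi S (f * g) := ⟨_, hQ⟩
        rw [Polynomial.X_pow_dvd_iff] at h1
        exact h1 _ (by omega)
      rw [h0, map_zero]
    exact this
  choose Q' hQ' using hdv
  refine ⟨o, F0 * G0, Q', hQ, hQ', ?_, ?_, ?_⟩
  · rw [hQ0]; exact mul_ne_zero hPf hG0
  · rw [hQ0]; exact dvd_mul_right _ _
  · intro u
    have h1 : (Q' u).coeff 0 = (Phi S (pderiv u (f * g))).coeff (0 + o) := by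
      rw [hQ' u, Polynomial.coeff_X_pow_mul]
    rw [h1, Phi_pderiv]
    have h2 := hco 0
    rw [← h2]
    congr 2

end Pool.Agent.H505R3.SLM
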